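import Pool.Agent.H671R2.PolyAuto

/-!
# Initial and final segments of lists in polynomial time

(Copied from `Pool.Agent.H329T.PPolyCand`.)
-/

namespace Pool.Agent.W2helper57.PPH

open Pool.Agent.NPC

variable {α β : Type} [TEnc α] [TEnc β]


omit [TEnc β] in
theorem take_eq : ∀ (l : List β) (i k : ℕ),
    ((l.zipIdx k).filter (fun q => decide (q.2 < i + k))).map Prod.fst = l.take i := by
  intro l
  induction l with
  | nil => intro i k; simp
  | cons b l ih =>
    intro i k
    cases i with
    | zero =>
      rw [List.take_zero, List.map_eq_nil_iff, List.filter_eq_nil_iff]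
      intro q hq
      rw [decide_eq_true_iff]
      have := List.le_snd_of_mem_zipIdx hq
      omega
    | succ i =>
      rw [List.zipIdx_cons, List.filter_cons, if_pos (by simp), List.map_cons, List.take_succ_cons,
        ← ih i (k + 1)]
      congr 3
      funext q
      congr 1
      rw [eq_iff_iff]
      omega

omit [TEnc β] in
theorem drop_eq : ∀ (l : List β) (i k : ℕ),
    ((l.zipIdx k).filter (fun q => decide (i + k ≤ q.2))).map Prod.fst = l.drop i := by
  intro l
  induction l with
  | nil => intro i k; simp
  | cons b l ih =>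
    intro i k
    cases i with
    | zero =>
      rw [List.drop_zero]
      have h1 : ((b :: l).zipIdx k).filter (fun q => decide (0 + k ≤ q.2)) = (b :: l).zipIdx k := by
        rw [List.filter_eq_self]
        intro q hq
        rw [decide_eq_true_iff]
        have := List.le_snd_of_mem_zipIdx hq
        omega
      rw [h1, List.zipIdx_map_fst]
    | succ i =>
      rw [List.zipIdx_cons, List.filter_cons, if_neg (by simp), List.drop_succ_cons,
        ← ih i (k + 1)]
      congr 2
      funext q
      congr 1
      rw [eq_iff_iff]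
      omega

theorem poly_take {l : α → List β} {n : α → ℕ} (hl : Poly l) (hn : Poly n) :
    Poly (fun a => (l a).take (n a)) := by
  refine (NPC.Poly.map (F := fun _ (q : β × ℕ) => q.1) (NPC.Poly.filter
    (p := fun a (q : β × ℕ) => decide (q.2 < n a)) (NPC.Poly.zipIdx hl)
    (NPC.Poly.decide_lt (NPC.Poly.snd (NPC.Poly.snd NPC.Poly.id)) (hn.comp (NPC.Poly.fst NPC.Poly.id))))
    (NPC.Poly.fst (NPC.Poly.snd NPC.Poly.id))).congr fun a => ?_
  have := take_eq (l a) (n a) 0
  simp only [Nat.add_zero] at this
  exact this

theorem poly_drop {l : α → List β} {n : α → ℕ} (hl : Poly l) (hn : Poly n) :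
    Poly (fun a => (l a).drop (n a)) := by
  refine (NPC.Poly.map (F := fun _ (q : β × ℕ) => q.1) (NPC.Poly.filter
    (p := fun a (q : β × ℕ) => decide (n a ≤ q.2)) (NPC.Poly.zipIdx hl)
    (NPC.Poly.decide_le (hn.comp (NPC.Poly.fst NPC.Poly.id)) (NPC.Poly.snd (NPC.Poly.snd NPC.Poly.id))))
    (NPC.Poly.fst (NPC.Poly.snd NPC.Poly.id))).congr fun a => ?_
  have := drop_eq (l a) (n a) 0
  simp only [Nat.add_zero] at this
  exact this

end Pool.Agent.W2helper57.PPH
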