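import Pool.Agent.W2helper57.PPH.Tie
import Pool.Agent.H529R3.Lev.Precomp
import Pool.Agent.H620R2.Gauge.P

/-!
# Threshold questions about the oracle are in `PP`, and the parity language is in the polynomial
# hierarchy with advice if they are
-/

namespace Pool.Agent.H620R2.Gauge

open Pool.Agent.NPC Pool.Agent.H622R2 Pool.Agent.W2helper57.PPH

namespace Thr

/-- the number of the strings `x j` with `|j| = |x|` in the oracle -/
noncomputable def parT (A : Oracle) (x : List Bool) : ℕ := cntS x.length (fun j => A (x ++ j) = true)

theorem mem_parLang (A : Oracle) (x : List Bool) : x ∈ parLang A ↔ Odd (parT A x) := by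
  classical
  unfold parT parLang
  rw [cntS_eq_range, Set.mem_ofPred_eq]
  constructor <;> intro h <;> convert h

theorem parT_le (A : Oracle) (x : List Bool) : parT A x ≤ 2 ^ x.length := cntS_le _ _

/-- a power of two -/
theorem poly_two_pow {α : Type} [TEnc α] {n : α → ℕ} (hn : UPoly n) : Poly (fun a => 2 ^ n a) := by
  have h1 : Poly (fun a => (List.replicate (n a) ()).map (fun _ => false)) :=
    NPC.Poly.map (F := fun _ _ => false) hn (NPC.Poly.const false)
  have h2 := Poly.valBits (Poly.append h1 (NPC.Poly.const [true]))
  refine h2.congr fun a => ?_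
  rw [List.map_replicate, valB_replicate_false]
  simp

/-- the test for the threshold -/
def thr (n : ℕ) (d : Bool) (R C : ℕ) : Bool :=
  if d then decide (R ≤ 2 ^ (n + 2) + 4 * C) else decide (R + 4 * C ≤ 2 ^ (n + 3))

/-- the answer, given the answer of the oracle -/
def res (n : ℕ) (d : Bool) (R C : ℕ) (b : Bool) : List Bool :=
  if thr n d R C = true then [true]
  else if 3 * 2 ^ (n + 2) ≤ R ∧ b ≠ d then [true] else [false]

/-- the verifier -/
def ppV (A : Oracle) (z : List Bool) : List Bool :=
  res (unpair (unpair z).2).1.length ((unpair (unpair z).2).2.head?.getD false)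
    (valB (((unpair z).1.drop (unpair (unpair z).2).1.length).take
      ((unpair (unpair z).2).1.length + 4))) (valB (unpair (unpair z).2).2.tail)
    (A ((unpair (unpair z).2).1 ++ (unpair z).1.take (unpair (unpair z).2).1.length))

theorem ppV_pair (A : Oracle) (w x : List Bool) (d : Bool) (c : List Bool) :
    ppV A (pairBits w (pairBits x (d :: c))) =
      res x.length d (valB ((w.drop x.length).take (x.length + 4))) (valB c)
        (A (x ++ w.take x.length)) := by
  unfold ppV
  simp only [unpair_pairBits, List.head?_cons, Option.getD_some, List.tail_cons]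

section

attribute [local irreducible] unpair valB

theorem isFP_ppV (A : Oracle) : IsFP A (ppV A) := by
  have h0 := poly_unpair
  have hw : Poly (fun z : List Bool => (unpair z).1) := by fun_prop
  have hx : Poly (fun z : List Bool => (unpair (unpair z).2).1) := by fun_prop
  have hs : Poly (fun z : List Bool => (unpair (unpair z).2).2) := by fun_prop
  have hn : UPoly (fun z : List Bool => (unpair (unpair z).2).1.length) := UPoly.length hx
  have hn' := hn.toPoly
  have hd : Poly (fun z : List Bool => (unpair (unpair z).2).2.head?.getD false) :=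
    PTask.poly_headD hs
  have hC : Poly (fun z : List Bool => valB (unpair (unpair z).2).2.tail) :=
    Poly.valBits (Poly.tail hs)
  have hR : Poly (fun z : List Bool => valB (((unpair z).1.drop
      (unpair (unpair z).2).1.length).take ((unpair (unpair z).2).1.length + 4))) :=
    Poly.valBits (poly_take (poly_drop hw hn') (Poly.add hn' (NPC.Poly.const 4)))
  have hQ : Poly (fun z : List Bool => [(unpair (unpair z).2).1 ++
      (unpair z).1.take (unpair (unpair z).2).1.length]) :=
    Poly.cons (Poly.append hx (poly_take hw hn')) (NPC.Poly.const [])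
  have e2 : Poly (fun z : List Bool => 2 ^ ((unpair (unpair z).2).1.length + 2)) :=
    poly_two_pow (hn.add (UPoly.const 2))
  have e3 : Poly (fun z : List Bool => 2 ^ ((unpair (unpair z).2).1.length + 3)) :=
    poly_two_pow (hn.add (UPoly.const 3))
  have hthr : Poly (fun z : List Bool => thr (unpair (unpair z).2).1.length
      ((unpair (unpair z).2).2.head?.getD false)
      (valB (((unpair z).1.drop (unpair (unpair z).2).1.length).take
        ((unpair (unpair z).2).1.length + 4))) (valB (unpair (unpair z).2).2.tail)) := by
    unfold thr
    exact Poly.ite (Poly.decide_eq hd (NPC.Poly.const true))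
      (Poly.decide_le hR (Poly.add e2 (Poly.mul (NPC.Poly.const 4) hC)))
      (Poly.decide_le (Poly.add hR (Poly.mul (NPC.Poly.const 4) hC)) e3)
  have hb : Poly (fun q : List Bool × List Bool => q.2.head?.getD false) :=
    PTask.poly_headD (Poly.snd Poly.id)
  have hH : Poly (fun q : List Bool × List Bool =>
      res (unpair (unpair q.1).2).1.length ((unpair (unpair q.1).2).2.head?.getD false)
      (valB (((unpair q.1).1.drop (unpair (unpair q.1).2).1.length).take
        ((unpair (unpair q.1).2).1.length + 4))) (valB (unpair (unpair q.1).2).2.tail)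
      (q.2.head?.getD false)) := by
    unfold res
    have f1 : Poly (fun q : List Bool × List Bool => q.1) := Poly.fst Poly.id
    exact Poly.ite (Poly.decide_eq (hthr.comp f1) (NPC.Poly.const true)) (NPC.Poly.const [true])
      (Poly.ite (Poly.decide_and (Poly.decide_le (Poly.mul (NPC.Poly.const 3) (e2.comp f1))
        (hR.comp f1)) (Poly.decide_not (Poly.decide_eq hb (hd.comp f1)))) (NPC.Poly.const [true])
        (NPC.Poly.const [false]))
  exact IsFP.tt (A := A) hQ hH

end

/-- the questions -/
def lang (A : Oracle) : Set (List Bool) :=
  {u | 2 ^ (Polynomial.X + Polynomial.C 1 : Polynomial ℕ).eval u.length <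
    2 * cntS ((Polynomial.X + Polynomial.C 1 : Polynomial ℕ).eval u.length)
      (fun w => ppV A (pairBits w u) = [true])}

theorem isPP_lang (A : Oracle) : IsPP A (lang A) :=
  IsPP.of_count (isFP_ppV A) (fun _ => Iff.rfl)

theorem card_range_filter_le (N K : ℕ) (h : K < N) :
    ((Finset.range N).filter (fun R => R ≤ K)).card = K + 1 := by
  have e : (Finset.range N).filter (fun R => R ≤ K) = Finset.range (K + 1) := by
    ext R
    simp only [Finset.mem_filter, Finset.mem_range]
    omega
  rw [e, Finset.card_range]

theorem card_range_filter_ge (N K : ℕ) :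
    ((Finset.range N).filter (fun R => K ≤ R)).card = N - K := by
  have e : (Finset.range N).filter (fun R => K ≤ R) = Finset.Ico K N := by
    ext R
    simp only [Finset.mem_filter, Finset.mem_range, Finset.mem_Ico]
    omega
  rw [e, Nat.card_Ico]

/-- the number of the accepting random strings -/
theorem count (A : Oracle) (x : List Bool) (d : Bool) (c : List Bool)
    (h : ∀ R, thr x.length d R (valB c) = true → R < 3 * 2 ^ (x.length + 2)) :
    cntS (x.length + (x.length + 4 + x.length))
      (fun w => ppV A (pairBits w (pairBits x (d :: c))) = [true]) =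
    2 ^ x.length * (((Finset.range (2 ^ (x.length + 4))).filter
      (fun R => thr x.length d R (valB c) = true)).card * 2 ^ x.length) +
    cntS x.length (fun j => A (x ++ j) ≠ d) * (2 ^ (x.length + 2) * 2 ^ x.length) := by
  set n := x.length with hn
  -- the second part of the random string
  have hsec : ∀ (S : ℕ → Prop) [DecidablePred S], cntS (n + 4 + n) (fun v => S (valB (v.take (n + 4)))) =
      ((Finset.range (2 ^ (n + 4))).filter S).card * 2 ^ n := by
    intro S _
    have h1 := cntS_prod (n + 4) n (fun v => S (valB v)) (fun _ => True)
    rw [cntS_true, cntS_valB] at h1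
    rw [← h1]
    exact cntS_congr fun v _ => by simp
  have hP1 : cntS (n + (n + 4 + n)) (fun w => True ∧
      thr n d (valB ((w.drop n).take (n + 4))) (valB c) = true) =
      2 ^ n * (((Finset.range (2 ^ (n + 4))).filter
        (fun R => thr n d R (valB c) = true)).card * 2 ^ n) := by
    rw [cntS_prod n (n + 4 + n) (fun _ => True)
      (fun v => thr n d (valB (v.take (n + 4))) (valB c) = true), cntS_true,
      hsec (fun R => thr n d R (valB c) = true)]
  have hP2 : cntS (n + (n + 4 + n)) (fun w => A (x ++ w.take n) ≠ d ∧
      3 * 2 ^ (n + 2) ≤ valB ((w.drop n).take (n + 4))) =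
      cntS n (fun j => A (x ++ j) ≠ d) * (2 ^ (n + 2) * 2 ^ n) := by
    rw [cntS_prod n (n + 4 + n) (fun j => A (x ++ j) ≠ d)
      (fun v => 3 * 2 ^ (n + 2) ≤ valB (v.take (n + 4))), hsec (fun R => 3 * 2 ^ (n + 2) ≤ R),
      card_range_filter_ge]
    congr 2
    have : 2 ^ (n + 4) = 4 * 2 ^ (n + 2) := by
      rw [show n + 4 = n + 2 + 2 by omega, pow_add]
      ring
    omega
  rw [← hP1, ← hP2, ← cntS_or]
  · apply cntS_congr
    intro w _
    rw [ppV_pair, ← hn]
    unfold res
    by_cases h1 : thr n d (valB ((w.drop n).take (n + 4))) (valB c) = true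
    · simp [h1]
    · rw [if_neg h1]
      by_cases h2 : 3 * 2 ^ (n + 2) ≤ valB ((w.drop n).take (n + 4)) ∧ A (x ++ w.take n) ≠ d
      · rw [if_pos h2]
        simp [h2]
      · rw [if_neg h2]
        constructor
        · intro h3; simp at h3
        · rintro (⟨_, h3⟩ | ⟨h3, h4⟩)
          · exact absurd h3 h1
          · exact absurd ⟨h4, h3⟩ h2
  · rintro w _ ⟨_, h1⟩ ⟨_, h2⟩
    exact absurd h2 (not_le.2 (h _ h1))

theorem length_arg (x : List Bool) (d : Bool) (c : List Bool) (hc : c.length = x.length + 1) :
    (Polynomial.X + Polynomial.C 1 : Polynomial ℕ).eval (pairBits x (d :: c)).length =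
      x.length + (x.length + 4 + x.length) := by
  rw [length_pairBits, List.length_cons, hc]
  simp
  omega

theorem mem_lang_false (A : Oracle) (x c : List Bool) (hc : c.length = x.length + 1) :
    pairBits x (false :: c) ∈ lang A ↔ valB c ≤ parT A x := by
  classical
  have hC := valB_lt c
  rw [hc] at hC
  unfold lang
  rw [Set.mem_ofPred_eq, length_arg x false c hc]
  have e1 : 2 ^ (x.length + 1) = 2 * 2 ^ x.length := by rw [pow_add]; ring
  have e2 : 2 ^ (x.length + 2) = 4 * 2 ^ x.length := by rw [pow_add]; ring
  have e3 : 2 ^ (x.length + 3) = 8 * 2 ^ x.length := by rw [pow_add]; ring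
  have e4 : 2 ^ (x.length + 4) = 16 * 2 ^ x.length := by rw [pow_add]; ring
  have h1 := count A x false c (by
    intro R hR
    simp only [thr, Bool.false_eq_true, if_false, decide_eq_true_eq] at hR
    omega)
  have h2 : ((Finset.range (2 ^ (x.length + 4))).filter
      (fun R => thr x.length false R (valB c) = true)).card = 2 ^ (x.length + 3) - 4 * valB c + 1 := by
    rw [← card_range_filter_le (2 ^ (x.length + 4)) (2 ^ (x.length + 3) - 4 * valB c) (by omega)]
    congr 1
    apply Finset.filter_congr
    intro R _
    simp only [thr, Bool.false_eq_true, if_false, decide_eq_true_eq]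
    omega
  have h3 : cntS x.length (fun j => A (x ++ j) ≠ false) = parT A x :=
    cntS_congr fun j _ => by simp
  rw [h1, h2, h3]
  obtain ⟨k, hk⟩ : ∃ k, 2 ^ (x.length + 3) - 4 * valB c = k := ⟨_, rfl⟩
  have hk' : 8 * 2 ^ x.length = k + 4 * valB c := by omega
  rw [hk, e2]
  have e5 : 2 ^ (x.length + (x.length + 4 + x.length)) =
      2 ^ x.length * 2 ^ x.length * (16 * 2 ^ x.length) := by
    rw [pow_add, pow_add, e4]
    ring
  rw [e5]
  generalize 2 ^ x.length = N at *
  generalize parT A x = T at *
  generalize valB c = C at *
  have hN : 0 < N := by omega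
  have e6 : 2 * (N * ((k + 1) * N) + T * (4 * N * N)) = N * N * (2 * (k + 1) + 8 * T) := by ring
  rw [e6, Nat.mul_lt_mul_left (by positivity)]
  omega

theorem mem_lang_true (A : Oracle) (x c : List Bool) (hc : c.length = x.length + 1)
    (hc' : valB c ≤ 2 ^ x.length) : pairBits x (true :: c) ∈ lang A ↔ parT A x ≤ valB c := by
  classical
  unfold lang
  rw [Set.mem_ofPred_eq, length_arg x true c hc]
  have e1 : 2 ^ (x.length + 1) = 2 * 2 ^ x.length := by rw [pow_add]; ring
  have e2 : 2 ^ (x.length + 2) = 4 * 2 ^ x.length := by rw [pow_add]; ring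
  have e3 : 2 ^ (x.length + 3) = 8 * 2 ^ x.length := by rw [pow_add]; ring
  have e4 : 2 ^ (x.length + 4) = 16 * 2 ^ x.length := by rw [pow_add]; ring
  have hN : 0 < 2 ^ x.length := by positivity
  have h1 := count A x true c (by
    intro R hR
    simp only [thr, if_true, decide_eq_true_eq] at hR
    omega)
  have h2 : ((Finset.range (2 ^ (x.length + 4))).filter
      (fun R => thr x.length true R (valB c) = true)).card = 2 ^ (x.length + 2) + 4 * valB c + 1 := by
    rw [← card_range_filter_le (2 ^ (x.length + 4)) (2 ^ (x.length + 2) + 4 * valB c) (by omega)]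
    congr 1
    apply Finset.filter_congr
    intro R _
    simp only [thr, if_true, decide_eq_true_eq]
  have h3 : cntS x.length (fun j => A (x ++ j) ≠ true) = 2 ^ x.length - parT A x := by
    have h4 := cntS_add_not x.length (fun j => A (x ++ j) = true)
    exact Nat.eq_sub_of_add_eq' h4
  have h5 := parT_le A x
  rw [h1, h2, h3, e2]
  have e5 : 2 ^ (x.length + (x.length + 4 + x.length)) =
      2 ^ x.length * 2 ^ x.length * (16 * 2 ^ x.length) := by
    rw [pow_add, pow_add, e4]
    ring
  rw [e5]
  generalize 2 ^ x.length = N at *
  generalize parT A x = T at *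
  generalize valB c = C at *
  obtain ⟨k, hk⟩ : ∃ k, N - T = k := ⟨_, rfl⟩
  have e6 : 2 * (N * ((4 * N + 4 * C + 1) * N) + k * (4 * N * N)) =
    N * N * (2 * (4 * N + 4 * C + 1) + 8 * k) := by ring
  rw [hk, e6, Nat.mul_lt_mul_left (by positivity)]
  omega

/-! ### The parity language -/

/-- an odd number below `2 ^ (|x| + 1)`, as a string of length `|x| + 1` -/
def norm (x c : List Bool) : List Bool := true :: (c ++ PTask.zeros x).take x.length

theorem length_norm (x c : List Bool) : (norm x c).length = x.length + 1 := by
  simp [norm, PTask.zeros]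

theorem odd_norm (x c : List Bool) : Odd (valB (norm x c)) := by
  rw [norm, valB_cons]
  simp

theorem exists_norm (x : List Bool) {t : ℕ} (ht : t ≤ 2 ^ x.length) (hodd : Odd t) :
    ∃ c : List Bool, c.length = x.length ∧ valB (norm x c) = t := by
  obtain ⟨k, rfl⟩ := hodd
  refine ⟨bitsOf x.length k, length_bitsOf _ _, ?_⟩
  have h1 : k < 2 ^ x.length := by omega
  rw [norm, List.take_left' (length_bitsOf _ _), valB_cons, valB_bitsOf, Nat.mod_eq_of_lt h1]
  simp
  omega

/-- the question, from the quantified strings, the input and the advice -/
def question (z : List Bool) : List Bool :=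
  pairBits (pairBits (unpair (unpair (unpair z).2).2).1
    (((unpair z).1.head?.getD false) ::
      norm (unpair (unpair (unpair z).2).2).1 (unpair (unpair z).2).1))
    (unpair (unpair (unpair z).2).2).2

theorem question_pair (d c x a : List Bool) :
    question (pairBits d (pairBits c (pairBits x a))) =
      pairBits (pairBits x (d.head?.getD false :: norm x c)) a := by
  unfold question
  simp only [unpair_pairBits]

section

attribute [local irreducible] unpair

theorem poly_question : Poly question := by
  have h0 := poly_unpair
  have h2 : Poly (fun z : List Bool => (unpair z).1.head?.getD false) :=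
    PTask.poly_headD (by fun_prop)
  have h3 : Poly (fun z : List Bool => (unpair (unpair (unpair z).2).2).1) := by fun_prop
  have h4 : Poly (fun z : List Bool => (unpair (unpair z).2).1) := by fun_prop
  have h5 : Poly (fun z : List Bool => (unpair (unpair (unpair z).2).2).2) := by fun_prop
  have h6 : Poly (fun z : List Bool => norm (unpair (unpair (unpair z).2).2).1
      (unpair (unpair z).2).1) := by
    unfold norm
    exact Poly.cons (NPC.Poly.const true) (poly_take (Poly.append h4 (PTask.poly_zeros.comp h3))
      (Poly.length h3))
  exact poly_pairBits (poly_pairBits h3 (Poly.cons h2 h6)) h5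

end

end Thr

open Thr H529R3.Lev in
/-- If the threshold questions are in the polynomial hierarchy with advice, then so is the parity
language. -/
theorem parLang_of_lang {A : Oracle} (h : IsPHpoly A (lang A)) : IsPHpoly A (parLang A) := by
  obtain ⟨L', hh, q, ⟨V, p, k, hV, hL'⟩, hq, hL⟩ := h
  -- the quantified language
  let p' : Polynomial ℕ := p.comp (Polynomial.C 3 * Polynomial.X + Polynomial.C 7) +
    Polynomial.X + Polynomial.C 1
  refine ⟨{y | Quant (p'.eval y.length) (fun z => V (truncG p question k z).2) (k + 2) true y},
    fun n => hh (3 * n + 3), q.comp (Polynomial.C 3 * Polynomial.X + Polynomial.C 3),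
    ⟨_, p', k + 2, hV.precomp (Poly.snd (poly_truncG p poly_question k)), fun x => Iff.rfl⟩,
    fun n => ?_, fun x => ?_⟩
  · have := hq (3 * n + 3)
    simpa [Polynomial.eval_comp] using this
  · show x ∈ parLang A ↔ pairBits x (hh (3 * x.length + 3)) ∈ {y | Quant (p'.eval y.length)
      (fun z => V (truncG p question k z).2) (k + 2) true y}
    rw [mem_parLang, Set.mem_ofPred_eq]
    set a := hh (3 * x.length + 3) with ha
    have hlen : (pairBits x a).length = 2 * x.length + 1 + a.length := by
      rw [length_pairBits]
    -- the meaning of the inner quantifiers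
    have hin : ∀ d c : List Bool,
        (Quant (p'.eval (pairBits x a).length) (fun z => V (truncG p question k z).2) k true
          (pairBits d (pairBits c (pairBits x a))) ↔
        pairBits x (d.head?.getD false :: norm x c) ∈ lang A) := by
      intro d c
      have h1 : (question (pairBits d (pairBits c (pairBits x a)))).length =
          6 * x.length + 7 + a.length := by
        rw [question_pair, length_pairBits, length_pairBits, List.length_cons, length_norm]
        ring
      have h2 : p.eval (question (pairBits d (pairBits c (pairBits x a)))).length ≤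
          p'.eval (pairBits x a).length := by
        rw [h1]
        simp only [p', Polynomial.eval_add, Polynomial.eval_comp, Polynomial.eval_mul,
          Polynomial.eval_C, Polynomial.eval_X]
        have h3 : p.eval (6 * x.length + 7 + a.length) ≤ p.eval (3 * (pairBits x a).length + 7) :=
          eval_mono _ (by omega)
        omega
      have h3 := quant_truncG p question V h2 k 0 true (pairBits d (pairBits c (pairBits x a)))
        (question (pairBits d (pairBits c (pairBits x a)))) rfl
      rw [zero_add] at h3
      rw [← h3, ← hL', question_pair, hL]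
      have h4 : (pairBits x (d.head?.getD false :: norm x c)).length = 3 * x.length + 3 := by
        rw [length_pairBits, List.length_cons, length_norm]
        ring
      rw [h4]
    have hp' : x.length + 1 ≤ p'.eval (pairBits x a).length := by
      simp only [p', Polynomial.eval_add, Polynomial.eval_C, Polynomial.eval_X]
      omega
    simp only [Quant, hin]
    constructor
    · intro hodd
      obtain ⟨c, hc, hv⟩ := exists_norm x (parT_le A x) hodd
      refine ⟨c, by omega, fun d _ => ?_⟩
      cases d.head?.getD false with
      | false => exact (mem_lang_false A x _ (length_norm x c)).2 hv.le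
      | true =>
        exact (mem_lang_true A x _ (length_norm x c) (by rw [hv]; exact parT_le A x)).2 hv.ge
    · rintro ⟨c, _, h1⟩
      have h2 := (mem_lang_false A x _ (length_norm x c)).1 (h1 [false] (by simp; omega))
      have h3 := (mem_lang_true A x _ (length_norm x c) (h2.trans (parT_le A x))).1
        (h1 [true] (by simp; omega))
      rw [le_antisymm h3 h2]
      exact odd_norm x c

end Pool.Agent.H620R2.Gauge
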