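import Pool.Agent.H620R2.Gauge.Defs

/-!
# Probabilistic polynomial time relative to an oracle

(Continues `Pool.Agent.H620R2.Gauge.Defs`.)
-/

namespace Pool.Agent.H620R2.Gauge

open Pool.Agent.NPC

/-- The probability that `V` has output `z` on the pair of `w` and `x`, where `w` is a uniformly
random string of length `m`. -/
noncomputable def outPr (V : List Bool → List Bool) (m : ℕ) (x z : List Bool) : ℝ :=
  (Nat.card {w : Fin m → Bool // V (pairBits (List.ofFn w) x) = z} : ℝ) / 2 ^ m

/-- The language `L` is in `PP` relative to `A`: for some algorithm `V` which is polynomial-time
computable relative to `A` and some polynomial `p`, for every input `x` and a uniformly random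
string `w` of length `p(|x|)`, the output of `V` on `⟨w, x⟩` is the right answer with probability
greater than `1/2`, where `[true]` means that `x` is in `L`, `[false]` means that `x` is not in `L`
and every other output means that the answer is not known. -/
def IsPP (A : Oracle) (L : Set (List Bool)) : Prop :=
  ∃ (V : List Bool → List Bool) (p : Polynomial ℕ), IsFP A V ∧ ∀ x,
    (x ∈ L → 1 / 2 < outPr V (p.eval x.length) x [true]) ∧
    (x ∉ L → 1 / 2 < outPr V (p.eval x.length) x [false])

end Pool.Agent.H620R2.Gauge
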