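import Pool.Agent.H620R2.Gauge.U1

/-!
# Counting in polynomial space

`PSPACE` relative to an oracle is closed under the majority quantifier over strings of
polynomially bounded length.
-/

namespace Pool.Agent.H620R2.Gauge

open Pool.Agent.NPC Pool.Agent.H622R2

namespace Cnt

/-- the number of the candidate, the number of the good candidates so far, and the memory of the
algorithm -/
def dst (s : List Bool) : ℕ × ℕ × List Bool := (unbits (ℕ × ℕ × List Bool) s).getD (1, 0, [])

theorem dst_nil : dst [] = (1, 0, []) := rfl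

theorem dst_bits (t : ℕ × ℕ × List Bool) : dst (bits t) = t := by
  unfold dst
  rw [unbits_bits]
  rfl

theorem poly_dst : Poly dst := Poly.optGetD poly_unbits (NPC.Poly.const _)

/-- what the given algorithm does next -/
def inAct (M : SAlg) (y : List Bool) (t : ℕ × ℕ × List Bool) : List Bool :=
  M.act (pairBits (pairBits (U1.cand t.1) y) t.2.2)

/-- the new count, when the given algorithm stops -/
def upc (M : SAlg) (β : List Bool → ℕ) (y : List Bool) (t : ℕ × ℕ × List Bool) : ℕ :=
  if inAct M y t = [true, true] then (if t.1.bits.length = β y + 1 then t.2.1 + 1 else t.2.1)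
  else t.2.1

/-- what the new algorithm does next -/
def eA (M : SAlg) (β : List Bool → ℕ) (y : List Bool) (t : ℕ × ℕ × List Bool) : List Bool :=
  if (inAct M y t).head? = some true then
    (if β y + 1 < (t.1 + 1).bits.length then
      (if t.1 + 1 < 4 * upc M β y t then [true, true] else [true]) else [false])
  else inAct M y t

/-- the new memory -/
def eN (M : SAlg) (β : List Bool → ℕ) (y : List Bool) (b : Bool) (t : ℕ × ℕ × List Bool) :
    ℕ × ℕ × List Bool :=
  if (inAct M y t).head? = some true then (t.1 + 1, upc M β y t, [])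
  else (t.1, t.2.1, M.next (pairBits (pairBits (U1.cand t.1) y) (b :: t.2.2)))

/-- what the new algorithm does next -/
def eAct (M : SAlg) (β : List Bool → ℕ) (v : List Bool) : List Bool :=
  eA M β (unpair v).1 (dst (unpair v).2)

/-- the new memory -/
def eNext (M : SAlg) (β : List Bool → ℕ) (v : List Bool) : ℕ × ℕ × List Bool :=
  eN M β (unpair v).1 ((unpair v).2.head?.getD false) (dst (unpair v).2.tail)

section

attribute [local fun_prop] poly_pairBits

attribute [local irreducible] unpair dst

theorem poly_inAct (M : SAlg) :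
    Poly (fun p : List Bool × ℕ × ℕ × List Bool => inAct M p.1 p.2) := by
  have h := poly_of_polyTime M.act_poly
  have h' := U1.poly_cand
  unfold inAct
  fun_prop

theorem poly_upc (M : SAlg) {β : List Bool → ℕ} (hβ : UPoly β) :
    Poly (fun p : List Bool × ℕ × ℕ × List Bool => upc M β p.1 p.2) := by
  have h1 := poly_inAct M
  have h4 : Poly (fun p : List Bool × ℕ × ℕ × List Bool => β p.1) :=
    hβ.toPoly.comp (Poly.fst Poly.id)
  have h5 : Poly (fun p : List Bool × ℕ × ℕ × List Bool => p.2.1) := by fun_prop
  have h6 : Poly (fun p : List Bool × ℕ × ℕ × List Bool => p.2.1.bits.length) :=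
    Poly.length (Poly.natBits h5)
  have h7 : Poly (fun p : List Bool × ℕ × ℕ × List Bool => p.2.2.1) := by fun_prop
  unfold upc
  exact Poly.ite (Poly.decide_eq h1 (NPC.Poly.const _))
    (Poly.ite (Poly.decide_eq h6 (Poly.succ h4)) (Poly.succ h7) h7) h7

theorem poly_eA (M : SAlg) {β : List Bool → ℕ} (hβ : UPoly β) :
    Poly (fun p : List Bool × ℕ × ℕ × List Bool => eA M β p.1 p.2) := by
  have h1 := poly_inAct M
  have h2 := poly_upc M hβ
  have h4 : Poly (fun p : List Bool × ℕ × ℕ × List Bool => β p.1) :=
    hβ.toPoly.comp (Poly.fst Poly.id)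
  have h5 : Poly (fun p : List Bool × ℕ × ℕ × List Bool => p.2.1 + 1) := by fun_prop
  have h6 : Poly (fun p : List Bool × ℕ × ℕ × List Bool => (p.2.1 + 1).bits.length) :=
    Poly.length (Poly.natBits h5)
  unfold eA
  exact Poly.ite (Poly.decide_eq (Poly.head? h1) (NPC.Poly.const _))
    (Poly.ite (Poly.decide_lt (Poly.succ h4) h6)
      (Poly.ite (Poly.decide_lt h5 (Poly.mul (NPC.Poly.const 4) h2)) (NPC.Poly.const _)
        (NPC.Poly.const _)) (NPC.Poly.const _)) h1

theorem poly_eAct (M : SAlg) {β : List Bool → ℕ} (hβ : UPoly β) : Poly (eAct M β) := by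
  have h2 := poly_unpair
  have h3 := poly_dst
  exact (poly_eA M hβ).comp (f := fun v : List Bool => ((unpair v).1, dst (unpair v).2))
    (by fun_prop)

theorem poly_eNext (M : SAlg) {β : List Bool → ℕ} (hβ : UPoly β) : Poly (eNext M β) := by
  have h1 := poly_inAct M
  have h2 := poly_unpair
  have h3 := poly_dst
  have h4 := poly_of_polyTime M.next_poly
  have h5 := U1.poly_cand
  have h6 : Poly (fun v : List Bool => inAct M (unpair v).1 (dst (unpair v).2.tail)) :=
    h1.comp (f := fun v : List Bool => ((unpair v).1, dst (unpair v).2.tail)) (by fun_prop)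
  have h7 : Poly (fun v : List Bool => upc M β (unpair v).1 (dst (unpair v).2.tail)) :=
    (poly_upc M hβ).comp (f := fun v : List Bool => ((unpair v).1, dst (unpair v).2.tail))
      (by fun_prop)
  unfold eNext eN
  fun_prop

end

theorem eAct_pair (M : SAlg) (β : List Bool → ℕ) (y s : List Bool) :
    eAct M β (pairBits y s) = eA M β y (dst s) := by
  unfold eAct
  rw [unpair_pairBits]

theorem eNext_pair (M : SAlg) (β : List Bool → ℕ) (y s : List Bool) (b : Bool) :
    eNext M β (pairBits y (b :: s)) = eN M β y b (dst s) := by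
  unfold eNext
  rw [unpair_pairBits]
  rfl

/-! ### The number of the good candidates -/

theorem cand_valB (w : List Bool) : U1.cand (valB (w ++ [true])) = w := by
  rw [U1.cand, (U1.bits_valB w).2]
  simp

open Classical in
/-- the number of the good candidates of length `b` among the first ones -/
noncomputable def cnt (b : ℕ) (P : List Bool → Prop) (n : ℕ) : ℕ :=
  ((Finset.Ico 1 n).filter (fun m => m.bits.length = b + 1 ∧ P (U1.cand m))).card

theorem cnt_one (b : ℕ) (P : List Bool → Prop) : cnt b P 1 = 0 := by
  simp [cnt]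

open Classical in
theorem cnt_succ (b : ℕ) (P : List Bool → Prop) {n : ℕ} (hn : 1 ≤ n) :
    cnt b P (n + 1) = if P (U1.cand n) then (if n.bits.length = b + 1 then cnt b P n + 1 else
      cnt b P n) else cnt b P n := by
  unfold cnt
  have e : Finset.Ico 1 (n + 1) = insert n (Finset.Ico 1 n) := by
    ext m
    simp only [Finset.mem_Ico, Finset.mem_insert]
    omega
  rw [e, Finset.filter_insert]
  by_cases h1 : P (U1.cand n)
  · by_cases h2 : n.bits.length = b + 1
    · rw [if_pos ⟨h2, h1⟩, if_pos h1, if_pos h2, Finset.card_insert_of_notMem (by simp)]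
    · rw [if_neg (fun h => h2 h.1), if_pos h1, if_neg h2]
  · rw [if_neg (fun h => h1 h.2), if_neg h1]

theorem cnt_lt (b : ℕ) (P : List Bool → Prop) {n : ℕ} (hn : 1 ≤ n) : cnt b P n < n := by
  classical
  have h : cnt b P n ≤ (Finset.Ico 1 n).card := Finset.card_filter_le _ _
  rw [Nat.card_Ico] at h
  omega

theorem cnt_last (b : ℕ) (P : List Bool → Prop) :
    cnt b P (2 ^ (b + 1)) = Nat.card {w : Fin b → Bool // P (List.ofFn w)} := by
  classical
  have hinj : Function.Injective (fun w : Fin b → Bool => valB (List.ofFn w ++ [true])) := by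
    intro w w' h
    have h1 := cand_valB (List.ofFn w)
    have h2 := cand_valB (List.ofFn w')
    simp only at h
    rw [h, h2] at h1
    exact (List.ofFn_injective h1).symm
  have hlen : ∀ w : Fin b → Bool, (valB (List.ofFn w ++ [true])).bits.length = b + 1 := by
    intro w
    rw [(U1.bits_valB _).2]
    simp
  have himg : (Finset.univ.image (fun w : Fin b → Bool => valB (List.ofFn w ++ [true]))) =
      Finset.Ico (2 ^ b) (2 ^ (b + 1)) := by
    apply Finset.eq_of_subset_of_card_le
    · intro m hm
      obtain ⟨w, -, rfl⟩ := Finset.mem_image.1 hm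
      have h1 := hlen w
      rw [Nat.size_eq_bits_len] at h1
      simp only [Finset.mem_Ico]
      constructor
      · rw [← Nat.lt_size, h1]
        omega
      · rw [← Nat.size_le, h1]
    · rw [Finset.card_image_of_injective _ hinj, Nat.card_Ico]
      simp
      omega
  have e : (Finset.Ico 1 (2 ^ (b + 1))).filter (fun m => m.bits.length = b + 1 ∧ P (U1.cand m)) =
      (Finset.univ.filter (fun w : Fin b → Bool => P (List.ofFn w))).image
        (fun w : Fin b → Bool => valB (List.ofFn w ++ [true])) := by
    ext m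
    simp only [Finset.mem_filter, Finset.mem_Ico, Finset.mem_image, Finset.mem_univ, true_and]
    constructor
    · rintro ⟨⟨h1, h2⟩, h3, h4⟩
      have h5 : m ∈ Finset.Ico (2 ^ b) (2 ^ (b + 1)) := by
        rw [Finset.mem_Ico]
        rw [Nat.size_eq_bits_len] at h3
        refine ⟨?_, h2⟩
        rw [← Nat.lt_size, h3]
        omega
      rw [← himg] at h5
      obtain ⟨w, -, rfl⟩ := Finset.mem_image.1 h5
      rw [cand_valB] at h4
      exact ⟨w, h4, rfl⟩
    · rintro ⟨w, h1, rfl⟩
      have h5 : valB (List.ofFn w ++ [true]) ∈ Finset.Ico (2 ^ b) (2 ^ (b + 1)) := by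
        rw [← himg]
        exact Finset.mem_image_of_mem _ (Finset.mem_univ w)
      rw [Finset.mem_Ico] at h5
      refine ⟨⟨?_, h5.2⟩, hlen w, ?_⟩
      · exact Nat.one_le_two_pow.trans h5.1
      · rw [cand_valB]
        exact h1
  unfold cnt
  rw [e, Finset.card_image_of_injective _ hinj, Nat.card_eq_fintype_card, Fintype.card_subtype]

end Cnt

open Cnt in
/-- `PSPACE` relative to an oracle is closed under the majority quantifier. -/
theorem IsPSPACE.majority {A : Oracle} {L : Set (List Bool)} (h : IsPSPACE A L)
    {β : List Bool → ℕ} (hβ : UPoly β) :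
    IsPSPACE A {y | 2 ^ β y < 2 * Nat.card {w : Fin (β y) → Bool //
      pairBits (List.ofFn w) y ∈ L}} := by
  classical
  obtain ⟨M, p, hM⟩ := h
  obtain ⟨q, hq⟩ := Poly.sz_le hβ
  have hqb : ∀ y, β y ≤ (q.comp (Polynomial.C 4 * Polynomial.X + Polynomial.C 1)).eval y.length := by
    intro y
    refine A2.sz_eval_le ?_
    have h1 := length_lt_sz (List.replicate (β y) ())
    rw [List.length_replicate] at h1
    exact h1.le.trans (hq y)
  let N : SAlg := ⟨eAct M β, polyTime_of_poly_list (poly_eAct M hβ),
    fun v => bits (eNext M β v), polyTime_bits (poly_eNext M hβ)⟩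
  refine ⟨N, Polynomial.C 8 * (q.comp (Polynomial.C 4 * Polynomial.X + Polynomial.C 1) +
    Polynomial.C 1) + Polynomial.C 4 + (Polynomial.C 4 * p.comp (Polynomial.C 2 *
    q.comp (Polynomial.C 4 * Polynomial.X + Polynomial.C 1) + Polynomial.C 1 + Polynomial.X) +
    Polynomial.C 1) + Polynomial.C 1, fun y => ?_⟩
  have hact : ∀ s, N.act (pairBits y s) = eA M β y (dst s) := fun s => eAct_pair M β y s
  have hnext : ∀ b s, N.next (pairBits y (b :: s)) = bits (eN M β y b (dst s)) := fun b s => by
    show bits (eNext M β (pairBits y (b :: s))) = _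
    rw [eNext_pair]
  have hule : ∀ t, upc M β y t ≤ t.2.1 + 1 := by
    intro t
    unfold upc
    split_ifs <;> omega
  -- the memory of the given algorithm occurs
  have inv : ∀ s, N.Reach A y s → 1 ≤ (dst s).1 ∧ (dst s).1.bits.length ≤ β y + 1 ∧
      (dst s).2.1 < (dst s).1 ∧
      M.Reach A (pairBits (U1.cand (dst s).1) y) (dst s).2.2 ∧ (s = [] ∨ s = bits (dst s)) := by
    intro s hs
    induction hs with
    | start =>
        rw [dst_nil]
        exact ⟨le_rfl, by simp, by simp, SAlg.Reach.start, Or.inl rfl⟩
    | @step s r hs hr ih =>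
        obtain ⟨h1, h2, h3, h4, h5⟩ := ih
        rw [hact] at hr
        rw [hnext, dst_bits]
        unfold eA at hr
        unfold eN
        by_cases c2 : (inAct M y (dst s)).head? = some true
        · rw [if_pos c2] at hr ⊢
          by_cases c3 : β y + 1 < ((dst s).1 + 1).bits.length
          · rw [if_pos c3] at hr
            split_ifs at hr <;> simp at hr
          · have h6 := hule (dst s)
            exact ⟨by simp, not_lt.1 c3, by simp only; omega, SAlg.Reach.start, Or.inr rfl⟩
        · rw [if_neg c2] at hr ⊢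
          exact ⟨h1, h2, h3, SAlg.Reach.step h4 hr, Or.inr rfl⟩
  -- simulation
  have sim : ∀ n c s, N.Reach A y s → dst s = (n, c, []) → ∀ t,
      M.Reach A (pairBits (U1.cand n) y) t → ∃ s', N.Reach A y s' ∧ dst s' = (n, c, t) := by
    intro n c s hs hd t ht
    induction ht with
    | start => exact ⟨s, hs, hd⟩
    | @step t r ht hr ih =>
        obtain ⟨s', h1, h2⟩ := ih
        have hin : inAct M y (n, c, t) = false :: r := hr
        have h3 : N.act (pairBits y s') = false :: r := by
          rw [hact, h2]
          simp [eA, hin]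
        have h4 := SAlg.Reach.step h1 h3
        refine ⟨_, h4, ?_⟩
        rw [hnext, dst_bits, h2]
        simp [eN, hin]
  -- the end of the work with one candidate
  have fin : ∀ n s, 1 ≤ n → N.Reach A y s →
      dst s = (n, cnt (β y) (fun w => pairBits w y ∈ L) n, []) →
      ∃ s' t, N.Reach A y s' ∧ dst s' = (n, cnt (β y) (fun w => pairBits w y ∈ L) n, t) ∧
        (inAct M y (n, cnt (β y) (fun w => pairBits w y ∈ L) n, t)).head? = some true ∧
        upc M β y (n, cnt (β y) (fun w => pairBits w y ∈ L) n, t) =
          cnt (β y) (fun w => pairBits w y ∈ L) (n + 1) := by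
    intro n s hn hs hd
    obtain ⟨_, t, z, h2, h3, h4⟩ := hM (pairBits (U1.cand n) y)
    obtain ⟨s', h5, h6⟩ := sim n _ s hs hd t h2
    have hin : inAct M y (n, cnt (β y) (fun w => pairBits w y ∈ L) n, t) = true :: z := h3
    refine ⟨s', t, h5, h6, by rw [hin]; rfl, ?_⟩
    rw [cnt_succ _ _ hn]
    unfold upc
    rw [hin]
    by_cases h7 : z = [true]
    · rw [if_pos (by rw [h7]), if_pos (h4.2 h7)]
    · rw [if_neg (by simpa using h7), if_neg (fun h => h7 (h4.1 h))]
  have reach : ∀ n, 1 ≤ n → n.bits.length ≤ β y + 1 → ∃ s, N.Reach A y s ∧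
      dst s = (n, cnt (β y) (fun w => pairBits w y ∈ L) n, []) := by
    intro n hn
    induction n, hn using Nat.le_induction with
    | base => exact fun _ => ⟨[], SAlg.Reach.start, by rw [dst_nil, cnt_one]⟩
    | succ n hn ih =>
        intro h1
        obtain ⟨s, h3, h4⟩ := ih ((U1.bits_length_mono (Nat.le_succ n)).trans h1)
        obtain ⟨s', t, h5, h6, h7, h8⟩ := fin n s hn h3 h4
        have h9 : N.act (pairBits y s') = false :: [] := by
          rw [hact, h6]
          unfold eA
          rw [if_pos h7, if_neg (by simpa using h1)]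
        refine ⟨_, SAlg.Reach.step h5 h9, ?_⟩
        rw [hnext, dst_bits, h6]
        unfold eN
        rw [if_pos h7, h8]
  refine ⟨fun s hs => ?_, ?_⟩
  · obtain ⟨h1, h2, h3, h4, h5⟩ := inv s hs
    rcases h5 with h5 | h5
    · rw [h5]
      simp
    · rw [h5, bits_length]
      generalize dst s = t at h1 h2 h3 h4
      obtain ⟨n, c, t⟩ := t
      rw [sz_pair, sz_pair]
      have e1 := sz_nat_le n
      rw [← Nat.size_eq_bits_len] at e1
      have e0 := sz_nat_le c
      rw [← Nat.size_eq_bits_len] at e0
      have e2 := sz_listBool_le t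
      have e3 := (hM (pairBits (U1.cand n) y)).1 t h4
      have e4 : (pairBits (U1.cand n) y).length ≤ (Polynomial.C 2 *
          q.comp (Polynomial.C 4 * Polynomial.X + Polynomial.C 1) + Polynomial.C 1 +
          Polynomial.X).eval y.length := by
        rw [length_pairBits, U1.length_cand]
        have := hqb y
        simp only [Polynomial.eval_add, Polynomial.eval_mul, Polynomial.eval_C,
          Polynomial.eval_X] at this ⊢
        simp only at h2
        omega
      have e5 := eval_mono p e4
      have e6 := hqb y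
      simp only at h2 h3
      have e7 := U1.bits_length_mono h3.le
      simp only [Polynomial.eval_add, Polynomial.eval_mul, Polynomial.eval_comp (p := p),
        Polynomial.eval_C] at e5 ⊢
      omega
  · have hlast : (2 ^ (β y + 1) - 1).bits.length ≤ β y + 1 := by
      rw [Nat.size_eq_bits_len, Nat.size_le]
      have : 0 < 2 ^ (β y + 1) := by positivity
      omega
    have hpos : 1 ≤ 2 ^ (β y + 1) - 1 := by
      have : 2 ^ 1 ≤ 2 ^ (β y + 1) := Nat.pow_le_pow_right (by norm_num) (by omega)
      omega
    have hadd : 2 ^ (β y + 1) - 1 + 1 = 2 ^ (β y + 1) := by omega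
    obtain ⟨s, h3, h4⟩ := reach _ hpos hlast
    obtain ⟨s', t, h5, h6, h7, h8⟩ := fin _ s hpos h3 h4
    rw [hadd, cnt_last] at h8
    have h9 : β y + 1 < (2 ^ (β y + 1)).bits.length := by
      rw [Nat.size_eq_bits_len]
      exact Nat.lt_size.2 le_rfl
    have h10 : 2 ^ (β y + 1) = 2 * 2 ^ β y := by rw [pow_succ]; ring
    by_cases h11 : 2 ^ (β y + 1) < 4 * Nat.card {w : Fin (β y) → Bool //
        pairBits (List.ofFn w) y ∈ L}
    · refine ⟨s', [true], h5, ?_, ⟨fun _ => rfl, fun _ => ?_⟩⟩
      · rw [hact, h6]
        unfold eA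
        simp only [hadd]
        rw [if_pos h7, if_pos h9, h8, if_pos h11]
      · simp only [Set.mem_ofPred_eq]
        omega
    · refine ⟨s', [], h5, ?_, ⟨fun h => ?_, fun h => by simp at h⟩⟩
      · rw [hact, h6]
        unfold eA
        simp only [hadd]
        rw [if_pos h7, if_pos h9, h8, if_neg h11]
      · simp only [Set.mem_ofPred_eq] at h
        omega

end Pool.Agent.H620R2.Gauge
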