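import Pool.Agent.W2helper57.PPH.Defs
import Pool.Agent.W2helper57.PPH.Count
import Pool.Agent.W2helper57.PPH.TakeDrop
import Pool.Agent.H620R2.Gauge.S
import Pool.Agent.H620R2.Gauge.Event
import Pool.Agent.H620R2.GaugeR.Seq

/-!
# Counting random strings; ties
-/

namespace Pool.Agent.H620R2.Gauge

open Pool.Agent.NPC Pool.Agent.H622R2 Pool.Agent.W2helper57.PPH

/-- the number of the strings of length `m` with the property `P` -/
noncomputable def cntS (m : ℕ) (P : List Bool → Prop) : ℕ :=
  Nat.card {w : Fin m → Bool // P (List.ofFn w)}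

theorem cntS_congr {m : ℕ} {P Q : List Bool → Prop} (h : ∀ w : List Bool, w.length = m → (P w ↔ Q w)) :
    cntS m P = cntS m Q := by
  unfold cntS
  congr 1
  have : ∀ w : Fin m → Bool, P (List.ofFn w) = Q (List.ofFn w) := fun w =>
    propext (h _ (by simp))
  simp only [this]

open Classical in
theorem cntS_eq_range (m : ℕ) (P : List Bool → Prop) :
    cntS m P = ((Finset.range (2 ^ m)).filter (fun j => P (bitsOf m j))).card := by
  unfold cntS
  rw [Nat.card_eq_fintype_card, Fintype.card_subtype]
  symm
  have hl : ∀ j, (bitsOf m j).length = m := fun j => length_bitsOf m j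
  have hof : ∀ j, List.ofFn (fun i : Fin m => (bitsOf m j)[i.1]'(by rw [hl j]; exact i.2)) =
      bitsOf m j := by
    intro j
    apply List.ext_getElem
    · simp [hl]
    · intro i h1 h2
      simp
  refine Finset.card_bij (fun j _ => fun i : Fin m => (bitsOf m j)[i.1]'(by rw [hl j]; exact i.2))
    ?_ ?_ ?_
  · intro j hj
    simp only [Finset.mem_filter, Finset.mem_univ, true_and] at hj ⊢
    rw [hof]
    exact hj.2
  · intro j hj j' hj' h
    simp only [Finset.mem_filter, Finset.mem_range] at hj hj'
    have h1 := hof j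
    rw [h, hof] at h1
    exact bitsOf_inj hj.1 hj'.1 h1.symm
  · intro w hw
    simp only [Finset.mem_filter, Finset.mem_univ, true_and] at hw
    obtain ⟨j, hj, h1⟩ := exists_bitsOf (List.ofFn w)
    rw [List.length_ofFn] at hj h1
    refine ⟨j, ?_, ?_⟩
    · simp only [Finset.mem_filter, Finset.mem_range]
      exact ⟨hj, by rw [h1]; exact hw⟩
    · apply List.ofFn_injective
      rw [hof, h1]

theorem cntS_le (m : ℕ) (P : List Bool → Prop) : cntS m P ≤ 2 ^ m := by
  classical
  rw [cntS_eq_range]
  refine (Finset.card_filter_le _ _).trans ?_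
  simp

theorem cntS_true (m : ℕ) : cntS m (fun _ => True) = 2 ^ m := by
  classical
  rw [cntS_eq_range]
  simp

theorem cntS_add_not (m : ℕ) (P : List Bool → Prop) : cntS m P + cntS m (fun w => ¬ P w) = 2 ^ m := by
  classical
  rw [cntS_eq_range, cntS_eq_range, Finset.card_filter_add_card_filter_not]
  simp

theorem cntS_mono {m : ℕ} {P Q : List Bool → Prop} (h : ∀ w : List Bool, w.length = m → P w → Q w) :
    cntS m P ≤ cntS m Q := by
  classical
  rw [cntS_eq_range, cntS_eq_range]
  apply Finset.card_le_card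
  intro j hj
  simp only [Finset.mem_filter] at hj ⊢
  exact ⟨hj.1, h _ (length_bitsOf m j) hj.2⟩

theorem cntS_or {m : ℕ} {P Q : List Bool → Prop} (h : ∀ w : List Bool, w.length = m → P w → ¬ Q w) :
    cntS m (fun w => P w ∨ Q w) = cntS m P + cntS m Q := by
  classical
  rw [cntS_eq_range, cntS_eq_range, cntS_eq_range, ← Finset.card_union_of_disjoint]
  · congr 1
    ext j
    simp only [Finset.mem_filter, Finset.mem_union]
    tauto
  · rw [Finset.disjoint_filter]
    intro j _ h1 h2
    exact h _ (length_bitsOf m j) h1 h2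

/-- the strings of length `a + b` -/
theorem cntS_add (a b : ℕ) (P : List Bool → List Bool → Prop) :
    cntS (a + b) (fun w => P (w.take a) (w.drop a)) =
      ∑ u : Fin a → Bool, cntS b (fun v => P (List.ofFn u) v) := by
  unfold cntS
  rw [← Nat.card_sigma]
  refine Nat.card_congr ?_
  refine ((Fin.appendEquiv a b).subtypeEquiv (p := fun uv : (Fin a → Bool) × (Fin b → Bool) =>
    P (List.ofFn uv.1) (List.ofFn uv.2)) (fun uv => ?_)).symm.trans ?_
  · show _ ↔ P ((List.ofFn (Fin.append uv.1 uv.2)).take a) ((List.ofFn (Fin.append uv.1 uv.2)).drop a)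
    rw [List.ofFn_fin_append, List.take_left' (by simp), List.drop_left' (by simp)]
  · exact ⟨fun p => ⟨p.1.1, ⟨p.1.2, p.2⟩⟩, fun q => ⟨(q.1, q.2.1), q.2.2⟩, fun _ => rfl, fun _ => rfl⟩

theorem cntS_prod (a b : ℕ) (P Q : List Bool → Prop) :
    cntS (a + b) (fun w => P (w.take a) ∧ Q (w.drop a)) = cntS a P * cntS b Q := by
  classical
  rw [cntS_add a b (fun u v => P u ∧ Q v)]
  have h : ∀ u : Fin a → Bool, cntS b (fun v => P (List.ofFn u) ∧ Q v) =
      if P (List.ofFn u) then cntS b Q else 0 := by
    intro u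
    split_ifs with h
    · exact cntS_congr fun v _ => by simp [h]
    · have : cntS b (fun v => P (List.ofFn u) ∧ Q v) = cntS b (fun _ => False) :=
        cntS_congr fun v _ => by simp [h]
      rw [this, cntS_eq_range]
      simp
  rw [Finset.sum_congr rfl (fun u _ => h u), ← Finset.sum_filter, Finset.sum_const, smul_eq_mul]
  congr 1
  unfold cntS
  rw [Nat.card_eq_fintype_card, Fintype.card_subtype]

/-- membership in terms of counts -/
theorem IsPP.count {A : Oracle} {L : Set (List Bool)} (h : IsPP A L) :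
    ∃ (V : List Bool → List Bool) (p : Polynomial ℕ), IsFP A V ∧ ∀ x, x ∈ L ↔
      2 ^ p.eval x.length < 2 * cntS (p.eval x.length) (fun w => V (pairBits w x) = [true]) := by
  obtain ⟨V, p, hV, hL⟩ := h
  refine ⟨V, p, hV, fun x => ?_⟩
  have key : ∀ z, 1 / 2 < outPr V (p.eval x.length) x z ↔
      2 ^ p.eval x.length < 2 * cntS (p.eval x.length) (fun w => V (pairBits w x) = z) := by
    intro z
    unfold outPr
    rw [lt_div_iff₀ (by positivity)]
    rw [← @Nat.cast_lt ℝ]
    unfold cntS
    push_cast
    constructor <;> intro h <;> linarith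
  constructor
  · exact fun h => (key _).1 ((hL x).1 h)
  · intro h
    by_contra h1
    have h2 := (key _).1 ((hL x).2 h1)
    have h3 := cntS_or (m := p.eval x.length) (P := fun w => V (pairBits w x) = [true])
      (Q := fun w => V (pairBits w x) = [false]) (fun w _ h4 h5 => by rw [h4] at h5; simp at h5)
    have h4 := cntS_le (p.eval x.length) (fun w => V (pairBits w x) = [true] ∨
      V (pairBits w x) = [false])
    omega

theorem IsPP.isPSPACE {A : Oracle} {L : Set (List Bool)} (h : IsPP A L) : IsPSPACE A L := by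
  obtain ⟨V, p, hV, hL⟩ := h.count
  have h1 : IsPSPACE A {y | V y = [true]} := IsP.isPSPACE ⟨V, hV, fun x => Iff.rfl⟩
  have h2 := h1.majority (β := fun y => p.eval y.length) (UPoly.eval (UPoly.length Poly.id) p)
  have e : {y | 2 ^ p.eval y.length < 2 * Nat.card {w : Fin (p.eval y.length) → Bool //
      pairBits (List.ofFn w) y ∈ {y | V y = [true]}}} = L := by
    ext x
    exact (hL x).symm
  rwa [e] at h2

/-! ### Ties -/

/-- accept if the verifier accepts with the first part of the random string and the rest is not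
zero -/
def tieV (V : List Bool → List Bool) (p : Polynomial ℕ) (z : List Bool) : List Bool :=
  if V (pairBits ((unpair z).1.take (p.eval (unpair z).2.length)) (unpair z).2) = [true] then
    (if valB ((unpair z).1.drop (p.eval (unpair z).2.length)) = 0 then [false] else [true])
  else [false]

theorem tieV_pair (V : List Bool → List Bool) (p : Polynomial ℕ) (w x : List Bool) :
    tieV V p (pairBits w x) =
      if V (pairBits (w.take (p.eval x.length)) x) = [true] then
        (if valB (w.drop (p.eval x.length)) = 0 then [false] else [true]) else [false] := by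
  unfold tieV
  rw [unpair_pairBits]

theorem isFP_tieV {A : Oracle} {V : List Bool → List Bool} (hV : IsFP A V) (p : Polynomial ℕ) :
    IsFP A (tieV V p) := by
  have h1 : Poly (fun z : List Bool => (unpair z).1) := Poly.fst poly_unpair
  have h2 : Poly (fun z : List Bool => (unpair z).2) := Poly.snd poly_unpair
  have h3 : UPoly (fun z : List Bool => p.eval (unpair z).2.length) :=
    UPoly.eval (UPoly.length h2) p
  have h4 : Poly (fun z : List Bool => pairBits ((unpair z).1.take
      (p.eval (unpair z).2.length)) (unpair z).2) :=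
    poly_pairBits (poly_take h1 h3.toPoly) h2
  have h5 : Poly (fun z : List Bool => valB ((unpair z).1.drop (p.eval (unpair z).2.length))) :=
    Poly.valBits (poly_drop h1 h3.toPoly)
  have h6 : IsFP A (fun z : List Bool => V (pairBits ((unpair z).1.take
      (p.eval (unpair z).2.length)) (unpair z).2)) := hV.precomp h4
  have h7 : Poly (fun q : List Bool × List Bool × List Bool => if q.2.1 = [true] then
      (if valB ((unpair q.1).1.drop (p.eval (unpair q.1).2.length)) = 0 then [false] else [true])
      else [false]) :=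
    Poly.ite (Poly.decide_eq (Poly.fst (Poly.snd Poly.id)) (NPC.Poly.const [true]))
      (Poly.ite (Poly.decide_eq (h5.comp (Poly.fst Poly.id)) (NPC.Poly.const 0))
        (NPC.Poly.const [false]) (NPC.Poly.const [true])) (NPC.Poly.const [false])
  exact IsFP.seq (φ := fun q => q.1) h6 (IsFP.of_poly (A := A) Poly.id) (Poly.fst Poly.id) h7

theorem valB_bitsOf (m j : ℕ) : valB (bitsOf m j) = j % 2 ^ m := by
  induction m generalizing j with
  | zero => simp [bitsOf, Nat.mod_one]
  | succ m ih =>
    have h : j % 2 ^ (m + 1) = j % 2 + 2 * ((j / 2) % 2 ^ m) := by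
      rw [pow_succ, mul_comm, Nat.mod_mul]
    rw [bitsOf, valB_cons, ih, h]
    rcases Nat.mod_two_eq_zero_or_one j with h1 | h1 <;> simp [h1]

theorem cntS_valB (m : ℕ) (S : ℕ → Prop) [DecidablePred S] : cntS m (fun w => S (valB w)) =
    ((Finset.range (2 ^ m)).filter S).card := by
  classical
  rw [cntS_eq_range]
  congr 1
  ext j
  simp only [Finset.mem_filter, Finset.mem_range]
  constructor
  · rintro ⟨h1, h2⟩
    rw [valB_bitsOf, Nat.mod_eq_of_lt h1] at h2
    exact ⟨h1, h2⟩
  · rintro ⟨h1, h2⟩
    rw [valB_bitsOf, Nat.mod_eq_of_lt h1]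
    exact ⟨h1, h2⟩

theorem cntS_valB_zero (m : ℕ) : cntS m (fun w => valB w = 0) = 1 := by
  classical
  rw [cntS_valB m (fun k => k = 0), Finset.card_eq_one]
  refine ⟨0, ?_⟩
  ext j
  simp only [Finset.mem_filter, Finset.mem_range, Finset.mem_singleton]
  constructor
  · exact fun h => h.2
  · rintro rfl
    exact ⟨by positivity, rfl⟩

theorem IsPP.of_count {A : Oracle} {L : Set (List Bool)} {V : List Bool → List Bool}
    {p : Polynomial ℕ} (hV : IsFP A V) (hL : ∀ x, x ∈ L ↔
      2 ^ p.eval x.length < 2 * cntS (p.eval x.length) (fun w => V (pairBits w x) = [true])) :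
    IsPP A L := by
  have e : ∀ n, (p + (p + Polynomial.C 2)).eval n = p.eval n + (p.eval n + 2) := by
    intro n
    simp
  refine ⟨tieV V p, p + (p + Polynomial.C 2), isFP_tieV hV p, fun x => ?_⟩
  rw [e]
  set m := p.eval x.length with hm
  set a := cntS m (fun w => V (pairBits w x) = [true]) with ha
  have h1 : cntS (m + (m + 2)) (fun w => tieV V p (pairBits w x) = [true]) =
      a * (2 ^ (m + 2) - 1) := by
    have h2 := cntS_prod m (m + 2) (fun w => V (pairBits w x) = [true]) (fun w => ¬ valB w = 0)
    have h3 := cntS_add_not (m + 2) (fun w => valB w = 0)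
    rw [cntS_valB_zero] at h3
    have h4 : cntS (m + 2) (fun w => ¬ valB w = 0) = 2 ^ (m + 2) - 1 := by omega
    rw [h4, ← ha] at h2
    rw [← h2]
    apply cntS_congr
    intro w _
    rw [tieV_pair, ← hm]
    by_cases h5 : V (pairBits (w.take m) x) = [true]
    · by_cases h6 : valB (w.drop m) = 0
      · simp [h5, h6]
      · simp [h5, h6]
    · simp [h5]
  have h7 : cntS (m + (m + 2)) (fun w => tieV V p (pairBits w x) = [true]) +
      cntS (m + (m + 2)) (fun w => tieV V p (pairBits w x) = [false]) = 2 ^ (m + (m + 2)) := by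
    rw [← cntS_add_not (m + (m + 2)) (fun w => tieV V p (pairBits w x) = [true])]
    congr 1
    apply cntS_congr
    intro w _
    rw [tieV_pair]
    split_ifs <;> simp
  rw [h1] at h7
  have h8 : 2 ^ (m + (m + 2)) = 2 ^ m * 2 ^ (m + 2) := by rw [pow_add]
  have h9 : 2 ^ (m + 2) = 4 * 2 ^ m := by rw [pow_add]; ring
  have h10 : 1 ≤ 2 ^ m := Nat.one_le_two_pow
  have half : ∀ z c, cntS (m + (m + 2)) (fun w => tieV V p (pairBits w x) = z) = c →
      2 ^ (m + (m + 2)) < 2 * c → 1 / 2 < outPr (tieV V p) (m + (m + 2)) x z := by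
    intro z c h11 h12
    unfold outPr
    rw [lt_div_iff₀ (by positivity)]
    have h13 : (Nat.card {w : Fin (m + (m + 2)) → Bool //
        tieV V p (pairBits (List.ofFn w) x) = z} : ℝ) = c := by
      rw [← h11]
      rfl
    rw [h13]
    have h14 : ((2 ^ (m + (m + 2)) : ℕ) : ℝ) < ((2 * c : ℕ) : ℝ) := Nat.cast_lt.2 h12
    push_cast at h14
    linarith
  constructor
  · intro hx
    have h11 := (hL x).1 hx
    rw [← hm, ← ha] at h11
    refine half _ _ h1 ?_
    rw [h8, h9]
    obtain ⟨t, ht⟩ : ∃ t, 4 * 2 ^ m - 1 = t := ⟨_, rfl⟩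
    have ht' : 4 * 2 ^ m = t + 1 := by omega
    rw [ht', Nat.add_sub_cancel]
    nlinarith
  · intro hx
    have h11 : 2 * a ≤ 2 ^ m := by
      by_contra h
      exact hx ((hL x).2 (by rw [← hm, ← ha]; omega))
    refine half _ _ (Nat.eq_sub_of_add_eq' h7) ?_
    rw [h8, h9]
    obtain ⟨t, ht⟩ : ∃ t, 4 * 2 ^ m - 1 = t := ⟨_, rfl⟩
    have ht' : 4 * 2 ^ m = t + 1 := by omega
    rw [ht', Nat.add_sub_cancel]
    have h12 : a * t * 2 ≤ 2 ^ m * t := by nlinarith
    have h13 : 2 ^ m * t < 2 ^ m * (t + 1) := by nlinarith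
    omega

end Pool.Agent.H620R2.Gauge
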